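import Mathlib

/-!
# MP_f5b231_co, Q1: `e(G) ≥ n² / (n - F(G))`

Let `M` be a perfect matching of `G`. For each edge of `M` let `z` be its end of smaller degree.
In the digraph on `M` with an arc from `e` to each edge of `M` which contains another neighbour of
`z e`, the greedy algorithm finds a set `S` with at least `∑ 1 / deg (z e)` elements which can be
ordered so that no arc goes to a later element. Then `M \ S` is a forcing set.
-/

set_option autoImplicit false

namespace Pool.Agent.Results.MP_f5b231_co.EdgeBound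

open Finset

/-- `S ⊆ M` is a forcing set of the perfect matching `M` of `G`: `M` is the only perfect matching
of `G` that contains `S`. -/
def IsForcingSet {V : Type*} (G : SimpleGraph V) (M : G.Subgraph) (S : Finset (Sym2 V)) : Prop :=
  (S : Set (Sym2 V)) ⊆ M.edgeSet ∧
    ∀ M' : G.Subgraph, M'.IsPerfectMatching → (S : Set (Sym2 V)) ⊆ M'.edgeSet → M' = M

/-- The forcing number `f(G, M)`: the minimum size of a forcing set of `M`. -/
noncomputable def forcingNumber {V : Type*} (G : SimpleGraph V) (M : G.Subgraph) : ℕ :=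
  sInf {k | ∃ S : Finset (Sym2 V), IsForcingSet G M S ∧ S.card = k}

/-- The maximum forcing number `F(G)`, over all perfect matchings `M` of `G`. -/
noncomputable def maxForcing {V : Type*} (G : SimpleGraph V) : ℕ :=
  sSup {k | ∃ M : G.Subgraph, M.IsPerfectMatching ∧ forcingNumber G M = k}

/-- `S` can be ordered so that `R i j` fails for `i` before `j`. -/
inductive Peel {I : Type*} [DecidableEq I] (R : I → I → Prop) : Finset I → Prop
  | empty : Peel R ∅
  | cons (i : I) (S : Finset I) : i ∉ S → (∀ j ∈ S, ¬ R i j) → Peel R S → Peel R (insert i S)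

/-- Greedy algorithm. -/
lemma exists_peel {I : Type*} [DecidableEq I] (R : I → I → Prop) [DecidableRel R] :
    ∀ (N : ℕ) (A : Finset I), A.card = N → ∃ S ⊆ A, Peel R S ∧
      ∑ i ∈ A, (1 : ℝ) / (((A.filter (fun j => j ≠ i ∧ R i j)).card : ℝ) + 1) ≤ S.card := by
  intro N
  induction N using Nat.strong_induction_on with
  | _ N ih =>
    intro A hA
    rcases A.eq_empty_or_nonempty with rfl | hne
    · exact ⟨∅, Finset.Subset.refl _, Peel.empty, by simp⟩
    · obtain ⟨i, hi, hmin⟩ := A.exists_min_image
        (fun i => (A.filter (fun j => j ≠ i ∧ R i j)).card) hne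
      set D := A.filter (fun j => j ≠ i ∧ R i j) with hD
      have hiD : i ∉ D := by simp [hD]
      set A' := A \ insert i D with hA'
      have hsub : insert i D ⊆ A := by
        intro x hx
        rcases Finset.mem_insert.1 hx with rfl | hx
        · exact hi
        · exact (Finset.mem_filter.1 hx).1
      have hcard : A'.card < N := by
        rw [hA', ← hA]
        apply Finset.card_lt_card
        refine ⟨Finset.sdiff_subset, fun h => ?_⟩
        have := h hi
        simp at this
      obtain ⟨S, hSA, hS, hle⟩ := ih A'.card hcard A' rfl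
      have hiS : i ∉ S := fun h => by
        have := hSA h
        simp [hA'] at this
      refine ⟨insert i S, ?_, ?_, ?_⟩
      · intro x hx
        rcases Finset.mem_insert.1 hx with rfl | hx
        · exact hi
        · exact (Finset.mem_sdiff.1 (hSA hx)).1
      · refine Peel.cons i S hiS ?_ hS
        intro j hj hR
        have h1 := hSA hj
        rw [hA', Finset.mem_sdiff] at h1
        apply h1.2
        rw [Finset.mem_insert]
        right
        rw [hD, Finset.mem_filter]
        exact ⟨h1.1, fun h => hiS (h ▸ hj), hR⟩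
      · rw [Finset.card_insert_of_notMem hiS]
        have hsplit : ∑ j ∈ A, (1 : ℝ) / (((A.filter (fun k => k ≠ j ∧ R j k)).card : ℝ) + 1) =
            ∑ j ∈ A', (1 : ℝ) / (((A.filter (fun k => k ≠ j ∧ R j k)).card : ℝ) + 1) +
            ∑ j ∈ insert i D, (1 : ℝ) / (((A.filter (fun k => k ≠ j ∧ R j k)).card : ℝ) + 1) :=
          (Finset.sum_sdiff hsub).symm
        have h1 : ∑ j ∈ A', (1 : ℝ) / (((A.filter (fun k => k ≠ j ∧ R j k)).card : ℝ) + 1) ≤
            ∑ j ∈ A', (1 : ℝ) / (((A'.filter (fun k => k ≠ j ∧ R j k)).card : ℝ) + 1) := by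
          apply Finset.sum_le_sum
          intro j hj
          apply one_div_le_one_div_of_le
          · positivity
          · have : (A'.filter (fun k => k ≠ j ∧ R j k)).card ≤
                (A.filter (fun k => k ≠ j ∧ R j k)).card :=
              Finset.card_le_card (Finset.filter_subset_filter _ Finset.sdiff_subset)
            have : ((A'.filter (fun k => k ≠ j ∧ R j k)).card : ℝ) ≤
                (A.filter (fun k => k ≠ j ∧ R j k)).card := by exact_mod_cast this
            linarith
        have h2 : ∑ j ∈ insert i D,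
            (1 : ℝ) / (((A.filter (fun k => k ≠ j ∧ R j k)).card : ℝ) + 1) ≤ 1 := by
          have h3 : ∑ j ∈ insert i D,
              (1 : ℝ) / (((A.filter (fun k => k ≠ j ∧ R j k)).card : ℝ) + 1) ≤
              ∑ j ∈ insert i D, (1 : ℝ) / ((D.card : ℝ) + 1) := by
            apply Finset.sum_le_sum
            intro j hj
            apply one_div_le_one_div_of_le
            · positivity
            · have := hmin j (hsub hj)
              have : (D.card : ℝ) ≤ (A.filter (fun k => k ≠ j ∧ R j k)).card := by
                exact_mod_cast this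
              linarith
          rw [Finset.sum_const, Finset.card_insert_of_notMem hiD] at h3
          have h4 : ((D.card + 1) • ((1 : ℝ) / ((D.card : ℝ) + 1))) = 1 := by
            rw [nsmul_eq_mul]
            push_cast
            field_simp
          linarith
        push_cast
        linarith

section
variable {V : Type*} {G : SimpleGraph V}

/-- the edges of the perfect matching `M` outside of `S` form a forcing set -/
lemma forcing_of_peel [DecidableEq V] {M : G.Subgraph} (hM : M.IsPerfectMatching)
    (z : Sym2 V → V) (hz : ∀ e ∈ M.edgeSet, z e ∈ e)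
    (R : Sym2 V → Sym2 V → Prop)
    (hR : ∀ e e' : Sym2 V, e ≠ e' → ∀ w ∈ e', G.Adj (z e) w → R e e')
    {M' : G.Subgraph} (hM' : M'.IsPerfectMatching) {S : Finset (Sym2 V)} (hS : Peel R S)
    (hSM : ∀ e ∈ S, e ∈ M.edgeSet) (h : ∀ e ∈ M.edgeSet, e ∉ S → e ∈ M'.edgeSet) :
    ∀ e ∈ M.edgeSet, e ∈ M'.edgeSet := by
  rw [SimpleGraph.Subgraph.isPerfectMatching_iff] at hM hM'
  induction hS with
  | empty =>
    intro e he
    exact h e he (by simp)
  | cons i S hi hno _ ih =>
    have hiM : i ∈ M.edgeSet := hSM i (Finset.mem_insert_self _ _)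
    have hiM' : i ∈ M'.edgeSet := by
      obtain ⟨w, hw, -⟩ := hM' (z i)
      obtain ⟨w', hw', -⟩ := hM w
      -- the matching edge of `M` at `w`
      by_cases hie : i = s(w, w')
      · have hzi := hz i hiM
        rw [hie, Sym2.mem_iff] at hzi
        rcases hzi with h1 | h1
        · rw [← hie] at h1
          rw [h1] at hw
          exact absurd hw.ne (by simp)
        · rw [← hie] at h1
          rw [hie, ← h1, Sym2.eq_swap]
          exact hw
      · have hR1 := hR i s(w, w') hie w (Sym2.mem_mk_left _ _) hw.adj_sub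
        have hnot : s(w, w') ∉ insert i S := by
          rw [Finset.mem_insert]
          rintro (h1 | h1)
          · exact hie h1.symm
          · exact hno _ h1 hR1
        have h2 : s(w, w') ∈ M'.edgeSet := h _ hw' hnot
        have h3 : M'.Adj w w' := h2
        obtain ⟨u, -, hu⟩ := hM' w
        have h4 : w' = z i := (hu w' h3).trans (hu (z i) hw.symm).symm
        have h5 : M.Adj w (z i) := h4 ▸ hw'
        -- so `z i` has two partners in `M` unless `i = s(w, z i)`
        have hzi := hz i hiM
        induction i using Sym2.ind with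
        | _ a b =>
          rw [Sym2.mem_iff] at hzi
          have hab : M.Adj a b := hiM
          obtain ⟨t, -, ht⟩ := hM (z s(a, b))
          rcases hzi with h6 | h6
          · have h7 : b = w := (ht b (by rw [h6]; exact hab)).trans (ht w h5.symm).symm
            exact absurd (by rw [h4, h6, ← h7, Sym2.eq_swap]) hie
          · have h7 : a = w := (ht a (by rw [h6]; exact hab.symm)).trans (ht w h5.symm).symm
            exact absurd (by rw [h4, h6, ← h7]) hie
    refine ih (fun e he => hSM e (Finset.mem_insert_of_mem he)) ?_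
    intro e he heS
    by_cases hei : e = i
    · exact hei ▸ hiM'
    · exact h e he (by simp [hei, heS])

lemma perfect_eq {M M' : G.Subgraph} (hM : M.IsPerfectMatching) (hM' : M'.IsPerfectMatching)
    (h : ∀ e ∈ M.edgeSet, e ∈ M'.edgeSet) : M' = M := by
  have hs := hM.2.verts_eq_univ
  have hs' := hM'.2.verts_eq_univ
  have h1 := SimpleGraph.Subgraph.isPerfectMatching_iff.1 hM
  have h2 := SimpleGraph.Subgraph.isPerfectMatching_iff.1 hM'
  apply SimpleGraph.Subgraph.ext
  · rw [hs, hs']
  · ext a b
    constructor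
    · intro hab
      obtain ⟨c, hc, -⟩ := h1 a
      have h3 : M'.Adj a c := h s(a, c) hc
      obtain ⟨d, -, hd⟩ := h2 a
      have : b = c := (hd b hab).trans (hd c h3).symm
      exact this ▸ hc
    · intro hab
      exact h s(a, b) hab

end

/-- the key estimate for one perfect matching -/
lemma key {V : Type*} [Fintype V] (G : SimpleGraph V) (n : ℕ) (hn : 1 ≤ n)
    (hV : Fintype.card V = 2 * n) (M : G.Subgraph) (hM : M.IsPerfectMatching) :
    (n : ℝ) ^ 2 / (G.edgeSet.ncard : ℝ) ≤ (n : ℝ) - forcingNumber G M := by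
  classical
  have hMi := SimpleGraph.Subgraph.isPerfectMatching_iff.1 hM
  choose mt hmt hmtu using hMi
  have hmt' : ∀ v, M.Adj v (mt v) := hmt
  have hmtu' : ∀ v w, M.Adj v w → w = mt v := hmtu
  have hmm : ∀ v, mt (mt v) = v := fun v => (hmtu' (mt v) v (hmt' v).symm).symm
  set E : Finset (Sym2 V) := M.edgeSet.toFinset with hE
  have hmemE : ∀ e, e ∈ E ↔ e ∈ M.edgeSet := fun e => by simp [hE]
  -- the fibres
  have hfib : ∀ e ∈ E, ∃ a b : V, a ≠ b ∧ e = s(a, b) ∧
      univ.filter (fun v => s(v, mt v) = e) = {a, b} := by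
    intro e he
    rw [hmemE] at he
    induction e using Sym2.ind with
    | _ a b =>
      have hab : M.Adj a b := he
      have hb : b = mt a := hmtu' a b hab
      have ha : a = mt b := hmtu' b a hab.symm
      refine ⟨a, b, hab.ne, rfl, ?_⟩
      ext v
      simp only [mem_filter, mem_univ, true_and, mem_insert, mem_singleton]
      constructor
      · intro h
        rw [Sym2.eq_iff] at h
        rcases h with h | h
        · exact Or.inl h.1
        · exact Or.inr h.1
      · rintro (rfl | rfl)
        · rw [← hb]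
        · rw [← ha, Sym2.eq_swap]
  have hmaps : ∀ v ∈ (univ : Finset V), s(v, mt v) ∈ E := fun v _ => (hmemE _).2 (hmt' v)
  have hEn : E.card = n := by
    have h1 := Finset.card_eq_sum_card_fiberwise (f := fun v => s(v, mt v)) (s := univ) (t := E)
      (fun v hv => hmaps v hv)
    have h2 : ∑ e ∈ E, (univ.filter (fun v => s(v, mt v) = e)).card = ∑ e ∈ E, 2 := by
      apply Finset.sum_congr rfl
      intro e he
      obtain ⟨a, b, hab, -, h3⟩ := hfib e he
      rw [h3, Finset.card_pair hab]
    rw [h2, Finset.sum_const, Finset.card_univ, hV] at h1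
    simp at h1
    omega
  -- the ends of smaller degree
  have hz : ∀ e : Sym2 V, ∃ v, v ∈ e ∧ ∀ w ∈ e, G.degree v ≤ G.degree w := by
    intro e
    induction e using Sym2.ind with
    | _ a b =>
      rcases le_total (G.degree a) (G.degree b) with h | h
      · refine ⟨a, Sym2.mem_mk_left _ _, ?_⟩
        intro w hw
        rcases Sym2.mem_iff.1 hw with rfl | rfl
        · exact le_rfl
        · exact h
      · refine ⟨b, Sym2.mem_mk_right _ _, ?_⟩
        intro w hw
        rcases Sym2.mem_iff.1 hw with rfl | rfl
        · exact h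
        · exact le_rfl
  choose z hz1 hz2 using hz
  set R : Sym2 V → Sym2 V → Prop := fun e e' => ∃ w ∈ e', G.Adj (z e) w with hR
  have hmz : ∀ e ∈ E, e = s(z e, mt (z e)) := by
    intro e he
    obtain ⟨a, b, hab, hes, -⟩ := hfib e he
    have h1 := hz1 e
    rw [hmemE] at he
    rw [hes] at he
    have hadj : M.Adj a b := he
    have hb : b = mt a := hmtu' a b hadj
    have ha : a = mt b := hmtu' b a hadj.symm
    have h1' : z e = a ∨ z e = b := by
      have : z e ∈ s(a, b) := by rw [← hes]; exact h1
      exact Sym2.mem_iff.1 this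
    rcases h1' with h | h
    · rw [h, ← hb]
      exact hes
    · rw [h, ← ha, Sym2.eq_swap]
      exact hes
  have hout : ∀ e ∈ E, (E.filter (fun j => j ≠ e ∧ R e j)).card + 1 ≤ G.degree (z e) := by
    intro e he
    have hsub : E.filter (fun j => j ≠ e ∧ R e j) ⊆
        ((G.neighborFinset (z e)).erase (mt (z e))).image (fun w => s(w, mt w)) := by
      intro j hj
      rw [Finset.mem_filter] at hj
      obtain ⟨hjE, hje, w, hwj, hw⟩ := hj
      rw [Finset.mem_image]
      have hjw : s(w, mt w) = j := by
        obtain ⟨a, b, hab, hes, -⟩ := hfib j hjE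
        rw [hmemE, hes] at hjE
        have hadj : M.Adj a b := hjE
        have hb : b = mt a := hmtu' a b hadj
        have ha : a = mt b := hmtu' b a hadj.symm
        rw [hes] at hwj ⊢
        rcases Sym2.mem_iff.1 hwj with rfl | rfl
        · rw [← hb]
        · rw [← ha, Sym2.eq_swap]
      refine ⟨w, ?_, hjw⟩
      rw [Finset.mem_erase, SimpleGraph.mem_neighborFinset]
      refine ⟨?_, hw⟩
      rintro rfl
      apply hje
      rw [← hjw, hmm, Sym2.eq_swap]
      exact (hmz e he).symm
    have h1 := (Finset.card_le_card hsub).trans Finset.card_image_le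
    have h2 : mt (z e) ∈ G.neighborFinset (z e) := by
      rw [SimpleGraph.mem_neighborFinset]
      exact (hmt' _).adj_sub
    rw [Finset.card_erase_of_mem h2, SimpleGraph.card_neighborFinset_eq_degree] at h1
    have h3 : 0 < G.degree (z e) := by
      rw [← SimpleGraph.card_neighborFinset_eq_degree]
      exact Finset.card_pos.2 ⟨_, h2⟩
    omega
  obtain ⟨S, hSE, hS, hle⟩ := exists_peel R E.card E rfl
  -- the forcing set
  have hforce : IsForcingSet G M (E \ S) := by
    refine ⟨?_, ?_⟩
    · intro e he
      rw [Finset.mem_coe, Finset.mem_sdiff] at he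
      exact (hmemE e).1 he.1
    · intro M' hM' hsub
      apply perfect_eq hM hM'
      refine forcing_of_peel hM z (fun e _ => hz1 e) R ?_ hM' hS
        (fun e he => (hmemE e).1 (hSE he)) ?_
      · intro e e' _ w hw hadj
        exact ⟨w, hw, hadj⟩
      · intro e he heS
        apply hsub
        rw [Finset.mem_coe, Finset.mem_sdiff]
        exact ⟨(hmemE e).2 he, heS⟩
  have hfn : forcingNumber G M ≤ n - S.card := by
    apply Nat.sInf_le
    refine ⟨E \ S, hforce, ?_⟩
    rw [Finset.card_sdiff_of_subset hSE, hEn]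
  have hSn : S.card ≤ n := hEn ▸ Finset.card_le_card hSE
  have hfn' : (S.card : ℝ) ≤ (n : ℝ) - forcingNumber G M := by
    have : forcingNumber G M + S.card ≤ n := by omega
    have : ((forcingNumber G M : ℝ)) + S.card ≤ n := by exact_mod_cast this
    linarith
  refine le_trans ?_ hfn'
  refine le_trans ?_ hle
  -- the sum
  have hdegpos : ∀ e ∈ E, (0 : ℝ) < (G.degree (z e) : ℝ) := by
    intro e he
    have := hout e he
    have : 0 < G.degree (z e) := by omega
    exact_mod_cast this
  have h1 : ∑ e ∈ E, (1 : ℝ) / (G.degree (z e) : ℝ) ≤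
      ∑ e ∈ E, (1 : ℝ) / (((E.filter (fun j => j ≠ e ∧ R e j)).card : ℝ) + 1) := by
    apply Finset.sum_le_sum
    intro e he
    apply one_div_le_one_div_of_le
    · exact Nat.cast_add_one_pos _
    · have h0 : (((E.filter (fun j => j ≠ e ∧ R e j)).card + 1 : ℕ) : ℝ) ≤
          ((G.degree (z e) : ℕ) : ℝ) := Nat.cast_le.2 (hout e he)
      rw [Nat.cast_add, Nat.cast_one] at h0
      exact h0
  refine le_trans ?_ h1
  have h2 := Finset.sq_sum_div_le_sum_sq_div E (fun _ => (1 : ℝ)) hdegpos
  simp only [one_pow] at h2
  refine le_trans ?_ h2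
  rw [Finset.sum_const, nsmul_eq_mul, mul_one, hEn]
  have hsum : 2 * ∑ e ∈ E, G.degree (z e) ≤ 2 * G.edgeFinset.card := by
    rw [← SimpleGraph.sum_degrees_eq_twice_card_edges, Finset.mul_sum,
      ← Finset.sum_fiberwise_of_maps_to (g := fun v => s(v, mt v)) (t := E) hmaps]
    apply Finset.sum_le_sum
    intro e he
    obtain ⟨a, b, hab, hes, h3⟩ := hfib e he
    rw [h3, Finset.sum_pair hab]
    have h4 := hz2 e a (by rw [hes]; exact Sym2.mem_mk_left _ _)
    have h5 := hz2 e b (by rw [hes]; exact Sym2.mem_mk_right _ _)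
    omega
  have hpos : (0 : ℝ) < ∑ e ∈ E, (G.degree (z e) : ℝ) := by
    apply Finset.sum_pos hdegpos
    rw [← Finset.card_pos, hEn]
    omega
  have hec : G.edgeSet.ncard = G.edgeFinset.card := by
    rw [← SimpleGraph.coe_edgeFinset, Set.ncard_coe_finset]
  rw [hec]
  apply div_le_div_of_nonneg_left (by positivity) hpos
  have : ∑ e ∈ E, G.degree (z e) ≤ G.edgeFinset.card := by omega
  exact_mod_cast this

/-- every perfect matching has a forcing set, of size at most `n - 1` -/
lemma forcingNumber_lt {V : Type*} [Fintype V] (G : SimpleGraph V) (n : ℕ) (hn : 1 ≤ n)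
    (hV : Fintype.card V = 2 * n) (M : G.Subgraph) (hM : M.IsPerfectMatching) :
    forcingNumber G M < n := by
  classical
  have h := key G n hn hV M hM
  have hE : 0 < (G.edgeSet.ncard : ℝ) := by
    have h1 := SimpleGraph.Subgraph.isPerfectMatching_iff.1 hM
    have : Nonempty V := by
      rw [← Fintype.card_pos_iff, hV]
      omega
    obtain ⟨v⟩ := this
    obtain ⟨w, hw, -⟩ := h1 v
    have h2 : s(v, w) ∈ G.edgeSet := hw.adj_sub
    have h3 : 0 < G.edgeSet.ncard := Set.ncard_pos (Set.toFinite _) |>.2 ⟨_, h2⟩
    exact_mod_cast h3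
  have h2 : (0 : ℝ) < (n : ℝ) ^ 2 / (G.edgeSet.ncard : ℝ) := by
    have : (0 : ℝ) < (n : ℝ) := Nat.cast_pos.2 hn
    exact div_pos (pow_pos this 2) hE
  have h3 : (forcingNumber G M : ℝ) < n := by linarith
  exact_mod_cast h3

/-- **The bound `e(G) ≥ n² / (n - F(G))`.**  Every finite simple graph `G` on `2n` vertices,
`n ≥ 1`, with a perfect matching satisfies `F(G) < n` and `n² / (n - F(G)) ≤ e(G)`. -/
theorem result {V : Type*} [Fintype V] (G : SimpleGraph V) (n : ℕ) (hn : 1 ≤ n)
    (hV : Fintype.card V = 2 * n) (hG : ∃ M : G.Subgraph, M.IsPerfectMatching) :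
    maxForcing G < n ∧
      (n : ℝ) ^ 2 / ((n : ℝ) - (maxForcing G : ℝ)) ≤ (G.edgeSet.ncard : ℝ) := by
  classical
  obtain ⟨M₀, hM₀⟩ := hG
  have hmem : maxForcing G ∈ {k | ∃ M : G.Subgraph, M.IsPerfectMatching ∧
      forcingNumber G M = k} := by
    apply Nat.sSup_mem
    · exact ⟨_, M₀, hM₀, rfl⟩
    · refine ⟨n, ?_⟩
      rintro k ⟨M, hM, rfl⟩
      exact (forcingNumber_lt G n hn hV M hM).le
  obtain ⟨M, hM, hk⟩ := hmem
  have h1 := forcingNumber_lt G n hn hV M hM
  have h2 := key G n hn hV M hM
  rw [hk] at h1 h2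
  refine ⟨h1, ?_⟩
  have h3 : (0 : ℝ) < (n : ℝ) - (maxForcing G : ℝ) := by
    have : (maxForcing G : ℝ) < n := by exact_mod_cast h1
    linarith
  have hE : 0 < (G.edgeSet.ncard : ℝ) := by
    by_contra hcon
    have h4 : (G.edgeSet.ncard : ℝ) = 0 := le_antisymm (not_lt.1 hcon) (by positivity)
    have h5 := SimpleGraph.Subgraph.isPerfectMatching_iff.1 hM
    have : Nonempty V := by
      rw [← Fintype.card_pos_iff, hV]
      omega
    obtain ⟨v⟩ := this
    obtain ⟨w, hw, -⟩ := h5 v
    have h6 : s(v, w) ∈ G.edgeSet := hw.adj_sub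
    have h7 : 0 < G.edgeSet.ncard := Set.ncard_pos (Set.toFinite _) |>.2 ⟨_, h6⟩
    have h8 : G.edgeSet.ncard = 0 := by exact_mod_cast h4
    omega
  rw [div_le_iff₀ hE] at h2
  rw [div_le_iff₀ h3]
  linarith

end Pool.Agent.Results.MP_f5b231_co.EdgeBound
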